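import Mathlib

set_option autoImplicit false

/-!
# Extrapolated gradient descent: worst-case gradient norm and critical factor
-/

namespace Pool.Agent.Helper66_Extrap

/-- The iterates `x₀, x₁, …` of gradient descent with stepsize `h / L`:
`x (k + 1) = x k - (h / L) ∇f (x k)`. -/
noncomputable def gdIter {m : ℕ} (f : EuclideanSpace ℝ (Fin m) → ℝ) (L h : ℝ)
    (x0 : EuclideanSpace ℝ (Fin m)) : ℕ → EuclideanSpace ℝ (Fin m)
  | 0 => x0
  | k + 1 => gdIter f L h x0 k - (h / L) • gradient f (gdIter f L h x0 k)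

/-- Problem instances: `f` is convex and differentiable on `ℝ^m` with `L`-Lipschitz gradient, and has
a minimizer at distance at most `D` from `x0`. -/
structure IsProblemInstance (L D : ℝ) {m : ℕ} (f : EuclideanSpace ℝ (Fin m) → ℝ)
    (x0 : EuclideanSpace ℝ (Fin m)) : Prop where
  convex : ConvexOn ℝ Set.univ f
  differentiable : Differentiable ℝ f
  lipschitz : ∀ x y, ‖gradient f x - gradient f y‖ ≤ L * ‖x - y‖
  minimizer : ∃ xs, (∀ y, f xs ≤ f y) ∧ ‖x0 - xs‖ ≤ D

/-- The worst-case gradient norm `p_grad(c)` at the extrapolated point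
`x_σ = x₀ + c (x_N - x₀)`: supremum (in the extended reals) over all instances in all dimensions
`m ≥ 1`. -/
noncomputable def pGrad (L D h : ℝ) (N : ℕ) (c : ℝ) : EReal :=
  sSup {r : EReal | ∃ (m : ℕ) (_ : 1 ≤ m) (f : EuclideanSpace ℝ (Fin m) → ℝ)
    (x0 : EuclideanSpace ℝ (Fin m)), IsProblemInstance L D f x0 ∧
    r = ((‖gradient f (x0 + c • (gdIter f L h x0 N - x0))‖ : ℝ) : EReal)}

/-- The critical extrapolation factor: the supremum (in the extended reals) of all `c ≥ 1` with
`p_grad(c) = L D / (N h c + 1)`. -/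
noncomputable def cCrit (L D h : ℝ) (N : ℕ) : EReal :=
  sSup {x : EReal | ∃ c : ℝ, x = (c : EReal) ∧ 1 ≤ c ∧
    pGrad L D h N c = ((L * D / (N * h * c + 1) : ℝ) : EReal)}

end Pool.Agent.Helper66_Extrap
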