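import Pool.Agent.Helper66_Extrap.Orbit

set_option autoImplicit false
set_option linter.unusedSectionVars false

/-!
# The instance violating the bound, and the upper bound on the critical factor
-/

namespace Pool.Agent.Helper66_Extrap

open scoped RealInnerProductSpace

section Orbit
variable {E : Type*} [NormedAddCommGroup E] [InnerProductSpace ℝ E]
variable {e e' : E} (he : ‖e‖ = 1) (he' : ‖e'‖ = 1) (hee : ⟪e, e'⟫ = 0)
include he he' hee

lemma norm_comb_sq (A B : ℝ) : ‖A • e + B • e'‖ ^ 2 = A ^ 2 + B ^ 2 := by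
  rw [norm_add_sq_real, norm_smul, norm_smul, he, he', inner_smul_left, inner_smul_right, hee]
  simp [sq_abs]

lemma norm_comb (A B : ℝ) : ‖A • e + B • e'‖ = Real.sqrt (A ^ 2 + B ^ 2) := by
  rw [← norm_comb_sq he he' hee, Real.sqrt_sq (norm_nonneg _)]

lemma inner_comb (A B : ℝ) : ⟪e, A • e + B • e'⟫ = A := by
  rw [inner_add_right, inner_smul_right, inner_smul_right, hee, real_inner_self_eq_norm_sq, he]
  ring

/-- the point `p_j = A_j e + B_j e'` shifted by `2 κ e` -/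
noncomputable def xpt (e e' : E) (h κ : ℝ) (j : ℕ) : E :=
  ((AB h κ j).1 • e + (AB h κ j).2 • e') + (2 * κ) • e

lemma step {h κ : ℝ} (hh : 0 < h) (hκ : 0 < κ) (j : ℕ) :
    xpt e e' h κ (j + 1) - h • GF κ e (xpt e e' h κ (j + 1)) = xpt e e' h κ j := by
  obtain ⟨h1, h2⟩ := AB_nonneg hh hκ (j + 1)
  have hn := nn_ge hh hκ j
  have hnu := nu_succ hh hκ j
  have hinner : 0 ≤ ⟪e, xpt e e' h κ (j + 1)⟫ := by
    unfold xpt
    rw [inner_add_right, inner_comb he he' hee, inner_smul_right, real_inner_self_eq_norm_sq, he]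
    positivity
  have hsub : xpt e e' h κ (j + 1) - (2 * κ) • e = (AB h κ (j + 1)).1 • e + (AB h κ (j + 1)).2 • e' := by
    unfold xpt; abel
  have hnorm : ‖(AB h κ (j + 1)).1 • e + (AB h κ (j + 1)).2 • e'‖ = nn h κ j + h := by
    rw [norm_comb he he' hee, ← hnu]; rfl
  unfold GF
  rw [hsub, min_eq_right hinner]
  unfold Q
  rw [hnorm, max_eq_right (by linarith)]
  have hpos : nn h κ j + h ≠ 0 := by positivity
  have hpos' : nn h κ j ≠ 0 := by positivity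
  unfold xpt
  rw [A_succ hh hκ, B_succ hh hκ]
  have eA : ((AB h κ j).1 + h * κ) * (1 + h / nn h κ j) - h * ((nn h κ j + h)⁻¹ *
      (((AB h κ j).1 + h * κ) * (1 + h / nn h κ j))) - h * κ = (AB h κ j).1 := by
    field_simp
    ring
  have eB : (AB h κ j).2 * (1 + h / nn h κ j) - h * ((nn h κ j + h)⁻¹ *
      ((AB h κ j).2 * (1 + h / nn h κ j))) = (AB h κ j).2 := by
    field_simp
    ring
  set a := ((AB h κ j).1 + h * κ) * (1 + h / nn h κ j) with ha
  set b := (AB h κ j).2 * (1 + h / nn h κ j) with hb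
  calc a • e + b • e' + (2 * κ) • e -
      h • ((nn h κ j + h)⁻¹ • (a • e + b • e') + κ • e + ((0 : ℝ) / 2) • e)
      = (a - h * ((nn h κ j + h)⁻¹ * a) - h * κ) • e + (b - h * ((nn h κ j + h)⁻¹ * b)) • e'
        + (2 * κ) • e := by module
    _ = _ := by rw [eA, eB]

lemma norm_xpt_pos {h κ : ℝ} (hh : 0 < h) (hκ : 0 < κ) (j : ℕ) : 0 < ‖xpt e e' h κ j‖ := by
  rw [norm_pos_iff]
  intro h0
  obtain ⟨h1, h2⟩ := AB_nonneg hh hκ j
  have h3 : ‖((AB h κ j).1 + 2 * κ) • e + (AB h κ j).2 • e'‖ ^ 2 = 0 := by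
    have : ((AB h κ j).1 + 2 * κ) • e + (AB h κ j).2 • e' = xpt e e' h κ j := by
      unfold xpt; module
    rw [this, h0]; simp
  rw [norm_comb_sq he he' hee] at h3
  nlinarith [sq_nonneg ((AB h κ j).1 + 2 * κ)]

lemma norm_xpt_le {h κ : ℝ} (hh : 0 < h) (hκ : 0 < κ) (j : ℕ) :
    ‖xpt e e' h κ j‖ ≤ 4 + j * h * (1 + κ) + 2 * κ := by
  unfold xpt
  have h1 : ‖(AB h κ j).1 • e + (AB h κ j).2 • e'‖ = nu h κ j := by
    rw [norm_comb he he' hee]; rfl
  have h2 : ‖(2 * κ) • e‖ = 2 * κ := by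
    rw [norm_smul, he, mul_one, Real.norm_of_nonneg (by positivity)]
  calc _ ≤ _ := norm_add_le _ _
    _ ≤ _ := by
      rw [h1, h2]
      have := nu_upper hh hκ j
      linarith

/-- lower bound for the gradient at the extrapolated point -/
lemma grad_extrap {h κ s : ℝ} (hh : 0 < h) (hκ : 0 < κ) (N : ℕ)
    (hAB : (AB h κ N).2 ≤ (AB h κ N).1) (hs : 0 ≤ s) (hδ : 0 ≤ s * (AB h κ N).1 / 2 - 2 * κ) :
    1 + (s * (AB h κ N).1 / 2 - 2 * κ) ^ 2 ≤
      ‖GF κ e (xpt e e' h κ 0 - s • (xpt e e' h κ N - xpt e e' h κ 0))‖ ^ 2 := by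
  obtain ⟨h1, h2⟩ := AB_nonneg hh hκ N
  set A := (AB h κ N).1 with hA
  set B := (AB h κ N).2 with hB
  set w := s * A with hw
  have hx : xpt e e' h κ 0 - s • (xpt e e' h κ N - xpt e e' h κ 0)
      = ((-w) • e + (4 - s * (B - 4)) • e') + (2 * κ) • e := by
    unfold xpt
    have h00 : AB h κ 0 = (0, 4) := rfl
    rw [h00, ← hA, ← hB, hw]
    module
  set Y := 4 - s * (B - 4) with hY
  rw [hx]
  have hin : ⟪e, ((-w) • e + Y • e') + (2 * κ) • e⟫ = 2 * κ - w := by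
    rw [inner_add_right, inner_comb he he' hee, inner_smul_right, real_inner_self_eq_norm_sq, he]
    ring
  have hw0 : 0 ≤ w := mul_nonneg hs h1
  have hw4 : 4 * κ ≤ w := by linarith
  have hnorm : ‖(-w) • e + Y • e'‖ ^ 2 = w ^ 2 + Y ^ 2 := by
    rw [norm_comb_sq he he' hee]; ring
  set n := ‖(-w) • e + Y • e'‖ with hn
  have hn0 : 0 ≤ n := norm_nonneg _
  have hn2 : 2 ≤ n := by
    by_contra hlt
    push Not at hlt
    have hlt2 : n ^ 2 < 4 := by nlinarith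
    have hw2 : w < 2 := by
      by_contra hc
      push Not at hc
      nlinarith [sq_nonneg Y]
    have hY2 : 2 < Y := by
      have : s * (B - 4) < 2 := by
        have : s * (B - 4) ≤ s * A := mul_le_mul_of_nonneg_left (by linarith) hs
        linarith
      rw [hY]; linarith
    nlinarith [sq_nonneg w]
  unfold GF
  rw [hin, min_eq_left (by linarith), add_sub_cancel_right]
  unfold Q
  rw [← hn, max_eq_right hn2]
  have hcomb : n⁻¹ • ((-w) • e + Y • e') + κ • e + ((2 * κ - w) / 2) • e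
      = (-(w / n + (w / 2 - 2 * κ))) • e + (Y / n) • e' := by
    rw [smul_add, smul_smul, smul_smul, div_eq_inv_mul w n, div_eq_inv_mul Y n]
    module
  rw [hcomb, norm_comb_sq he he' hee]
  have hnpos : 0 < n := by linarith
  have e1 : (w / n) ^ 2 + (Y / n) ^ 2 = 1 := by
    rw [div_pow, div_pow, ← add_div, ← hnorm, div_self (by positivity)]
  have e2 : 0 ≤ w / n := div_nonneg hw0 hn0
  nlinarith [mul_nonneg e2 hδ]

end Orbit

section Final

/-- first basis vector -/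
noncomputable def e1 : EuclideanSpace ℝ (Fin 2) := EuclideanSpace.single 0 1
/-- second basis vector -/
noncomputable def e2 : EuclideanSpace ℝ (Fin 2) := EuclideanSpace.single 1 1

lemma e1_norm : ‖e1‖ = 1 := by simp [e1]
lemma e2_norm : ‖e2‖ = 1 := by simp [e2]
lemma e12 : ⟪e1, e2⟫ = 0 := by
  simp [e1, e2, EuclideanSpace.inner_single_left]

/-- scaled example function -/
noncomputable def fS (L s κ : ℝ) (x : EuclideanSpace ℝ (Fin 2)) : ℝ := L * s ^ 2 * F κ e1 (s⁻¹ • x)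
/-- its gradient -/
noncomputable def gS (L s κ : ℝ) (x : EuclideanSpace ℝ (Fin 2)) : EuclideanSpace ℝ (Fin 2) :=
  (L * s) • GF κ e1 (s⁻¹ • x)

lemma fS_firstOrder {L s κ : ℝ} (hL : 0 < L) (hs : 0 < s) (x y : EuclideanSpace ℝ (Fin 2)) :
    fS L s κ x + ⟪gS L s κ x, y - x⟫ ≤ fS L s κ y := by
  unfold fS gS
  have h := F_firstOrder κ e1 (s⁻¹ • x) (s⁻¹ • y)
  rw [← smul_sub, inner_smul_right] at h
  rw [inner_smul_left]
  simp only [conj_trivial]
  have h2 : L * s ^ 2 * (F κ e1 (s⁻¹ • x) + s⁻¹ * ⟪GF κ e1 (s⁻¹ • x), y - x⟫)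
      ≤ L * s ^ 2 * F κ e1 (s⁻¹ • y) := mul_le_mul_of_nonneg_left h (by positivity)
  have h3 : L * s ^ 2 * (F κ e1 (s⁻¹ • x) + s⁻¹ * ⟪GF κ e1 (s⁻¹ • x), y - x⟫)
      = L * s ^ 2 * F κ e1 (s⁻¹ • x) + L * s * ⟪GF κ e1 (s⁻¹ • x), y - x⟫ := by
    field_simp
  linarith

lemma gS_lip {L s κ : ℝ} (hL : 0 < L) (hs : 0 < s) (x y : EuclideanSpace ℝ (Fin 2)) :
    ‖gS L s κ x - gS L s κ y‖ ≤ L * ‖x - y‖ := by
  unfold gS
  rw [← smul_sub, norm_smul, Real.norm_of_nonneg (by positivity)]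
  have h := GF_lip κ e1 e1_norm (s⁻¹ • x) (s⁻¹ • y)
  rw [← smul_sub, norm_smul, norm_inv, Real.norm_of_nonneg hs.le] at h
  calc L * s * ‖GF κ e1 (s⁻¹ • x) - GF κ e1 (s⁻¹ • y)‖ ≤ L * s * (s⁻¹ * ‖x - y‖) :=
        mul_le_mul_of_nonneg_left h (by positivity)
    _ = L * ‖x - y‖ := by field_simp

lemma gradient_fS {L s κ : ℝ} (hL : 0 < L) (hs : 0 < s) (x : EuclideanSpace ℝ (Fin 2)) :
    gradient (fS L s κ) x = gS L s κ x :=
  (hasGradientAt_of_firstOrder hL.le (fS_firstOrder hL hs) (gS_lip hL hs) x).gradient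

lemma gdIter_fS {L s κ h : ℝ} (hL : 0 < L) (hs : 0 < s) (hh : 0 < h) (hκ : 0 < κ) (N k : ℕ)
    (hk : k ≤ N) :
    gdIter (fS L s κ) L h (s • xpt e1 e2 h κ N) k = s • xpt e1 e2 h κ (N - k) := by
  induction k with
  | zero => rfl
  | succ k ih =>
    rw [gdIter, ih (by omega), gradient_fS hL hs]
    unfold gS
    rw [smul_smul, smul_smul, inv_mul_cancel₀ hs.ne', one_smul]
    have e : N - k = (N - (k + 1)) + 1 := by omega
    rw [e, ← step e1_norm e2_norm e12 hh hκ (N - (k + 1)), smul_sub, smul_smul]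
    congr 2
    field_simp

/-- The violating instance. -/
theorem exists_bad {L D h κ s : ℝ} (hL : 0 < L) (hD : 0 < D) (hh : 0 < h) (hκ : 0 < κ) (hκ1 : κ ≤ 1)
    (hs : 0 ≤ s) (N : ℕ) (hAB : (AB h κ N).2 ≤ (AB h κ N).1)
    (hδ : 0 ≤ s * (AB h κ N).1 / 2 - 2 * κ)
    (hlt : (4 + N * h * (1 + κ) + 2 * κ) ^ 2
      < (1 + (s * (AB h κ N).1 / 2 - 2 * κ) ^ 2) * (N * h * (1 + s) + 1) ^ 2) :
    ∃ (f : EuclideanSpace ℝ (Fin 2) → ℝ) (x0 : EuclideanSpace ℝ (Fin 2)),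
      IsProblemInstance L D f x0 ∧
      L * D / (N * h * (1 + s) + 1) < ‖gradient f (x0 + (1 + s) • (gdIter f L h x0 N - x0))‖ := by
  set X := xpt e1 e2 h κ N with hX
  have hXpos : 0 < ‖X‖ := norm_xpt_pos e1_norm e2_norm e12 hh hκ N
  set σ := D / ‖X‖ with hσ
  have hσpos : 0 < σ := by positivity
  refine ⟨fS L σ κ, σ • X, ⟨?_, ?_, ?_, ?_⟩, ?_⟩
  · exact convexOn_of_firstOrder (fS_firstOrder hL hσpos)
  · intro x
    exact (hasGradientAt_of_firstOrder hL.le (fS_firstOrder hL hσpos) (gS_lip hL hσpos) x).differentiableAt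
  · intro x y
    rw [gradient_fS hL hσpos, gradient_fS hL hσpos]
    exact gS_lip hL hσpos x y
  · refine ⟨0, fun y => ?_, ?_⟩
    · have h1 := fS_firstOrder (κ := κ) hL hσpos 0 y
      have h2 : gS L σ κ 0 = 0 := by
        unfold gS
        rw [smul_zero, GF_zero κ hκ.le hκ1 e1 e1_norm, smul_zero]
      rw [h2, inner_zero_left, add_zero] at h1
      exact h1
    · rw [sub_zero, norm_smul, Real.norm_of_nonneg hσpos.le, hσ, div_mul_cancel₀ _ hXpos.ne']
  · rw [gdIter_fS hL hσpos hh hκ N N le_rfl, Nat.sub_self, gradient_fS hL hσpos]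
    unfold gS
    have e : σ⁻¹ • (σ • X + (1 + s) • (σ • xpt e1 e2 h κ 0 - σ • X))
        = xpt e1 e2 h κ 0 - s • (X - xpt e1 e2 h κ 0) := by
      rw [← smul_sub, smul_comm (1 + s) σ, ← smul_add, smul_smul, inv_mul_cancel₀ hσpos.ne', one_smul]
      module
    rw [e, norm_smul, Real.norm_of_nonneg (by positivity)]
    have h1 := grad_extrap e1_norm e2_norm e12 hh hκ N hAB hs hδ
    have h2 := norm_xpt_le e1_norm e2_norm e12 hh hκ N
    rw [← hX] at h1 h2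
    set g := ‖GF κ e1 (xpt e1 e2 h κ 0 - s • (X - xpt e1 e2 h κ 0))‖ with hg
    have hg0 : 0 ≤ g := norm_nonneg _
    set c := (N : ℝ) * h * (1 + s) + 1 with hc
    have hcpos : 0 < c := by positivity
    have h3 : ‖X‖ < g * c := by
      have h4 : ‖X‖ ^ 2 < (g * c) ^ 2 := by
        calc ‖X‖ ^ 2 ≤ (4 + N * h * (1 + κ) + 2 * κ) ^ 2 :=
              pow_le_pow_left₀ (norm_nonneg _) h2 2
          _ < (1 + (s * (AB h κ N).1 / 2 - 2 * κ) ^ 2) * c ^ 2 := hlt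
          _ ≤ g ^ 2 * c ^ 2 := mul_le_mul_of_nonneg_right h1 (sq_nonneg _)
          _ = (g * c) ^ 2 := by ring
      exact lt_of_pow_lt_pow_left₀ 2 (by positivity) h4
    rw [div_lt_iff₀ hcpos, hσ]
    calc L * D = L * (D / ‖X‖) * ‖X‖ := by field_simp
      _ < L * (D / ‖X‖) * (g * c) := by
          apply mul_lt_mul_of_pos_left h3 (by positivity)
      _ = L * (D / ‖X‖) * g * c := by ring

/-- For `N ≥ exp (4 / h)` the bound `L D / (N h c + 1)` is violated for all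
`c ≥ 1 + 56 / (h ^ 2 N √(log N))`. -/
theorem bad_of_large {L D h : ℝ} (hL : 0 < L) (hD : 0 < D) (hh : 0 < h) (hh1 : h ≤ 1) (N : ℕ)
    (hN : Real.exp (4 / h) ≤ N) (s : ℝ) (hs : 56 / (h ^ 2 * N * Real.sqrt (Real.log N)) ≤ s) :
    ∃ (f : EuclideanSpace ℝ (Fin 2) → ℝ) (x0 : EuclideanSpace ℝ (Fin 2)),
      IsProblemInstance L D f x0 ∧
      L * D / (N * h * (1 + s) + 1) < ‖gradient f (x0 + (1 + s) • (gdIter f L h x0 N - x0))‖ := by
  have hNpos : (0 : ℝ) < N := lt_of_lt_of_le (Real.exp_pos _) hN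
  have hN1 : 1 ≤ N := by
    have : (0 : ℕ) < N := by exact_mod_cast hNpos
    omega
  set ℓ := Real.log N with hℓ
  have hℓ4 : 4 / h ≤ ℓ := by
    rw [hℓ, Real.le_log_iff_exp_le hNpos]; exact hN
  have h4h : 4 ≤ 4 / h := by
    rw [le_div_iff₀ hh]; linarith
  have hℓpos : 0 < ℓ := by linarith
  set κ := 4 / (h * ℓ) with hκdef
  have hκ : 0 < κ := by positivity
  have hκ1 : κ ≤ 1 := by
    rw [hκdef, div_le_one (by positivity)]
    rw [div_le_iff₀ hh] at hℓ4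
    linarith
  obtain ⟨hA0, hB4⟩ := AB_nonneg hh hκ N
  have hBpos : 0 < (AB h κ N).2 := by linarith
  -- slope at least one
  have hAB : (AB h κ N).2 ≤ (AB h κ N).1 := by
    have h1 := slope hh hκ hh1 hκ1 N
    have h2 := sum_lower N hN1
    have h3 : h * κ * (ℓ / 4) = 1 := by
      rw [hκdef]; field_simp
    have h4 : 1 ≤ (AB h κ N).1 / (AB h κ N).2 := by
      calc (1 : ℝ) = h * κ * (ℓ / 4) := h3.symm
        _ ≤ h * κ * ∑ j ∈ Finset.range N, 1 / (2 * ((j : ℝ) + 2)) :=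
            mul_le_mul_of_nonneg_left h2 (by positivity)
        _ ≤ _ := h1
    rwa [one_le_div hBpos] at h4
  -- A_N ≥ N h / 2
  have hA : N * h / 2 ≤ (AB h κ N).1 := by
    have h1 := nu_lower hh hκ N
    have h2 := nu_sq (h := h) (κ := κ) hh hκ N
    have h3 : (N * h) ^ 2 ≤ 2 * (AB h κ N).1 ^ 2 := by
      have h4 : (N * h) ^ 2 ≤ nu h κ N ^ 2 := pow_le_pow_left₀ (by positivity) (by linarith) 2
      nlinarith
    by_contra hc
    push Not at hc
    nlinarith [mul_pos hNpos hh]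
  set r := Real.sqrt ℓ with hr
  have hrpos : 0 < r := Real.sqrt_pos.2 hℓpos
  have hr2 : r ^ 2 = ℓ := Real.sq_sqrt hℓpos.le
  have hr1 : 1 ≤ r := by
    rw [hr]; apply Real.one_le_sqrt.2; linarith
  have hs0 : 0 ≤ s := le_trans (by positivity) hs
  -- δ ≥ 6 / (h r)
  have hδ6 : 6 / (h * r) ≤ s * (AB h κ N).1 / 2 - 2 * κ := by
    have h1 : 28 / (h * r) ≤ s * (AB h κ N).1 := by
      calc 28 / (h * r) = 56 / (h ^ 2 * N * r) * (N * h / 2) := by field_simp; norm_num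
        _ ≤ s * (AB h κ N).1 := mul_le_mul hs hA (by positivity) hs0
    have h2 : 2 * κ ≤ 8 / (h * r) := by
      have e : 2 * κ = 8 / (h * (r ^ 2)) := by rw [hκdef, hr2]; ring
      rw [e]
      apply div_le_div_of_nonneg_left (by norm_num) (by positivity)
      nlinarith [mul_pos hh hrpos]
    have e1 : (28 : ℝ) / (h * r) = 28 * (1 / (h * r)) := by ring
    have e2 : (8 : ℝ) / (h * r) = 8 * (1 / (h * r)) := by ring
    have e3 : (6 : ℝ) / (h * r) = 6 * (1 / (h * r)) := by ring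
    rw [e1] at h1
    rw [e2] at h2
    rw [e3]
    linarith
  set δ := s * (AB h κ N).1 / 2 - 2 * κ with hδdef
  have hδ0 : 0 ≤ δ := le_trans (by positivity) hδ6
  apply exists_bad hL hD hh hκ hκ1 hs0 N hAB hδ0
  rw [← hδdef]
  -- final inequality
  have hNlog : ℓ ≤ N := by
    have := Real.log_le_sub_one_of_pos hNpos
    linarith
  have h1 : 4 + N * h * (1 + κ) + 2 * κ ≤ (1 + 2 * κ) * (N * h + 1) := by
    have h2 : 4 ≤ κ * (N * h) := by
      have : κ * (N * h) = 4 * (N / ℓ) := by rw [hκdef]; field_simp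
      rw [this]
      have : 1 ≤ N / ℓ := by rwa [one_le_div hℓpos]
      linarith
    nlinarith
  have h2 : (1 + 2 * κ) ^ 2 < 1 + δ ^ 2 := by
    have h3 : (1 + 2 * κ) ^ 2 ≤ 1 + 8 * κ := by nlinarith
    have h4 : 36 / (h ^ 2 * ℓ) ≤ δ ^ 2 := by
      calc 36 / (h ^ 2 * ℓ) = (6 / (h * r)) ^ 2 := by rw [← hr2]; ring
        _ ≤ δ ^ 2 := pow_le_pow_left₀ (by positivity) hδ6 2
    have h5 : 8 * κ < 36 / (h ^ 2 * ℓ) := by
      rw [hκdef, lt_div_iff₀ (by positivity)]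
      have : 8 * (4 / (h * ℓ)) * (h ^ 2 * ℓ) = 32 * h := by field_simp; norm_num
      rw [this]
      linarith
    linarith
  have h3 : (4 + N * h * (1 + κ) + 2 * κ) ^ 2 ≤ (1 + 2 * κ) ^ 2 * (N * h + 1) ^ 2 := by
    rw [← mul_pow]
    exact pow_le_pow_left₀ (by positivity) h1 2
  have hNh : 0 < (N : ℝ) * h := by positivity
  have h4 : (N * h + 1) ^ 2 ≤ (N * h * (1 + s) + 1) ^ 2 := by
    apply pow_le_pow_left₀ (by positivity)
    nlinarith
  calc (4 + N * h * (1 + κ) + 2 * κ) ^ 2 ≤ (1 + 2 * κ) ^ 2 * (N * h + 1) ^ 2 := h3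
    _ < (1 + δ ^ 2) * (N * h + 1) ^ 2 := by
        apply mul_lt_mul_of_pos_right h2 (by positivity)
    _ ≤ (1 + δ ^ 2) * (N * h * (1 + s) + 1) ^ 2 := mul_le_mul_of_nonneg_left h4 (by positivity)

theorem cCrit_le {L D h : ℝ} (hL : 0 < L) (hD : 0 < D) (hh : 0 < h) (hh1 : h ≤ 1) (N : ℕ)
    (hN : Real.exp (4 / h) ≤ N) :
    cCrit L D h N ≤ ((1 + 56 / (h ^ 2 * N * Real.sqrt (Real.log N)) : ℝ) : EReal) := by
  apply sSup_le
  rintro x ⟨c, rfl, hc1, hc⟩
  rw [EReal.coe_le_coe_iff]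
  by_contra hlt
  push Not at hlt
  obtain ⟨f, x0, hinst, hgt⟩ := bad_of_large hL hD hh hh1 N hN (c - 1) (by linarith)
  have e : (1 : ℝ) + (c - 1) = c := by ring
  rw [e] at hgt
  have h1 : ((‖gradient f (x0 + c • (gdIter f L h x0 N - x0))‖ : ℝ) : EReal) ≤ pGrad L D h N c :=
    le_sSup ⟨2, by norm_num, f, x0, hinst, rfl⟩
  rw [hc, EReal.coe_le_coe_iff] at h1
  linarith

end Final

end Pool.Agent.Helper66_Extrap
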