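import Pool.Agent.Helper66_Extrap.Smooth

set_option autoImplicit false
set_option linter.unusedSectionVars false

/-!
# The gradient descent orbit of the example, constructed backwards
-/

namespace Pool.Agent.Helper66_Extrap

open scoped RealInnerProductSpace

/-- the backward orbit, in coordinates (step `h`, tilt `κ`). -/
noncomputable def AB (h κ : ℝ) : ℕ → ℝ × ℝ
  | 0 => (0, 4)
  | j + 1 =>
    (((AB h κ j).1 + h * κ) * (1 + h / Real.sqrt (((AB h κ j).1 + h * κ) ^ 2 + (AB h κ j).2 ^ 2)),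
      (AB h κ j).2 * (1 + h / Real.sqrt (((AB h κ j).1 + h * κ) ^ 2 + (AB h κ j).2 ^ 2)))

/-- `n_j = ‖u_j‖` -/
noncomputable def nn (h κ : ℝ) (j : ℕ) : ℝ :=
  Real.sqrt (((AB h κ j).1 + h * κ) ^ 2 + (AB h κ j).2 ^ 2)

/-- `ν_j = ‖p_j‖` -/
noncomputable def nu (h κ : ℝ) (j : ℕ) : ℝ :=
  Real.sqrt ((AB h κ j).1 ^ 2 + (AB h κ j).2 ^ 2)

section
variable {h κ : ℝ} (hh : 0 < h) (hκ : 0 < κ)
include hh hκ

lemma AB_nonneg (j : ℕ) : 0 ≤ (AB h κ j).1 ∧ 4 ≤ (AB h κ j).2 := by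
  induction j with
  | zero => simp [AB]
  | succ j ih =>
    obtain ⟨h1, h2⟩ := ih
    have h3 : 0 ≤ h / Real.sqrt (((AB h κ j).1 + h * κ) ^ 2 + (AB h κ j).2 ^ 2) := by positivity
    constructor
    · simp only [AB]
      have : 0 ≤ (AB h κ j).1 + h * κ := by positivity
      exact mul_nonneg this (by linarith)
    · simp only [AB]
      nlinarith

lemma nn_ge (j : ℕ) : 4 ≤ nn h κ j := by
  obtain ⟨h1, h2⟩ := AB_nonneg hh hκ j
  unfold nn
  apply Real.le_sqrt_of_sq_le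
  have : 0 ≤ ((AB h κ j).1 + h * κ) ^ 2 := sq_nonneg _
  nlinarith

lemma nn_sq (j : ℕ) : nn h κ j ^ 2 = ((AB h κ j).1 + h * κ) ^ 2 + (AB h κ j).2 ^ 2 := by
  unfold nn
  rw [Real.sq_sqrt (by positivity)]

lemma nu_sq (j : ℕ) : nu h κ j ^ 2 = (AB h κ j).1 ^ 2 + (AB h κ j).2 ^ 2 := by
  unfold nu
  rw [Real.sq_sqrt (by positivity)]

lemma nu_nonneg (j : ℕ) : 0 ≤ nu h κ j := Real.sqrt_nonneg _

lemma A_succ (j : ℕ) : (AB h κ (j + 1)).1 = ((AB h κ j).1 + h * κ) * (1 + h / nn h κ j) := rfl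
lemma B_succ (j : ℕ) : (AB h κ (j + 1)).2 = (AB h κ j).2 * (1 + h / nn h κ j) := rfl

lemma nu_succ (j : ℕ) : nu h κ (j + 1) = nn h κ j + h := by
  have hn := nn_ge hh hκ j
  have h1 : nu h κ (j + 1) ^ 2 = (nn h κ j + h) ^ 2 := by
    rw [nu_sq hh hκ, A_succ hh hκ, B_succ hh hκ]
    have e : (((AB h κ j).1 + h * κ) * (1 + h / nn h κ j)) ^ 2 + ((AB h κ j).2 * (1 + h / nn h κ j)) ^ 2
        = (((AB h κ j).1 + h * κ) ^ 2 + (AB h κ j).2 ^ 2) * (1 + h / nn h κ j) ^ 2 := by ring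
    rw [e, ← nn_sq hh hκ]
    have : nn h κ j ≠ 0 := by positivity
    field_simp
  have h2 : 0 ≤ nn h κ j + h := by linarith
  exact (pow_left_inj₀ (nu_nonneg hh hκ _) h2 two_ne_zero).1 h1

lemma nn_le (j : ℕ) : nn h κ j ≤ nu h κ j + h * κ := by
  have h0 := nu_nonneg hh hκ j
  obtain ⟨h1, h2⟩ := AB_nonneg hh hκ j
  have hhk : 0 ≤ h * κ := by positivity
  unfold nn
  apply Real.sqrt_le_iff.2
  refine ⟨by positivity, ?_⟩
  have h3 := nu_sq hh hκ j
  have h4 : (AB h κ j).1 ≤ nu h κ j := by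
    apply Real.le_sqrt_of_sq_le
    nlinarith [sq_nonneg (AB h κ j).2]
  nlinarith

lemma le_nn (j : ℕ) : nu h κ j ≤ nn h κ j := by
  obtain ⟨h1, h2⟩ := AB_nonneg hh hκ j
  have hhk : 0 ≤ h * κ := by positivity
  unfold nu nn
  apply Real.sqrt_le_sqrt
  nlinarith

lemma nu_upper (j : ℕ) : nu h κ j ≤ 4 + j * h * (1 + κ) := by
  induction j with
  | zero =>
    have : nu h κ 0 = 4 := by
      unfold nu AB
      norm_num
    rw [this]; simp
  | succ j ih =>
    rw [nu_succ hh hκ]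
    have := nn_le hh hκ j
    push_cast
    nlinarith

lemma nu_lower (j : ℕ) : 4 + j * h ≤ nu h κ j := by
  induction j with
  | zero =>
    have : nu h κ 0 = 4 := by
      unfold nu AB
      norm_num
    rw [this]; simp
  | succ j ih =>
    rw [nu_succ hh hκ]
    have := le_nn hh hκ j
    push_cast
    nlinarith

lemma B_le_nu (j : ℕ) : (AB h κ j).2 ≤ nu h κ j := by
  apply Real.le_sqrt_of_sq_le
  nlinarith [sq_nonneg (AB h κ j).1]

/-- growth of the slope `A_j / B_j`. -/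
lemma slope (hh1 : h ≤ 1) (hκ1 : κ ≤ 1) (N : ℕ) :
    h * κ * ∑ j ∈ Finset.range N, 1 / (2 * ((j : ℝ) + 2)) ≤ (AB h κ N).1 / (AB h κ N).2 := by
  induction N with
  | zero => simp [AB]
  | succ j ih =>
    obtain ⟨h1, h2⟩ := AB_nonneg hh hκ j
    have hn := nn_ge hh hκ j
    have hB : 0 < (AB h κ j).2 := by linarith
    have hfac : 0 < 1 + h / nn h κ j := by positivity
    rw [Finset.sum_range_succ, mul_add]
    have e : (AB h κ (j + 1)).1 / (AB h κ (j + 1)).2 = (AB h κ j).1 / (AB h κ j).2 + h * κ / (AB h κ j).2 := by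
      rw [A_succ hh hκ, B_succ hh hκ]
      field_simp
    rw [e]
    have h3 : (AB h κ j).2 ≤ 2 * ((j : ℝ) + 2) := by
      have h4 := B_le_nu hh hκ j
      have h5 := nu_upper hh hκ j
      have h6 : (j : ℝ) * h * (1 + κ) ≤ 2 * j := by
        have hj : (0 : ℝ) ≤ j := Nat.cast_nonneg j
        have : h * (1 + κ) ≤ 2 := by nlinarith
        nlinarith
      linarith
    have h7 : h * κ * (1 / (2 * ((j : ℝ) + 2))) ≤ h * κ / (AB h κ j).2 := by
      rw [mul_one_div]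
      apply div_le_div_of_nonneg_left (by positivity) hB h3
    linarith

end

lemma sum_lower (N : ℕ) (hN : 1 ≤ N) :
    Real.log N / 4 ≤ ∑ j ∈ Finset.range N, 1 / (2 * ((j : ℝ) + 2)) := by
  have h1 : ∀ M : ℕ, Real.log ((M : ℝ) + 2) - Real.log 2 ≤ ∑ j ∈ Finset.range M, 1 / ((j : ℝ) + 2) := by
    intro M
    induction M with
    | zero => simp
    | succ M ih =>
      rw [Finset.sum_range_succ]
      have h2 : Real.log ((M : ℝ) + 3) - Real.log ((M : ℝ) + 2) ≤ 1 / ((M : ℝ) + 2) := by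
        rw [← Real.log_div (by positivity) (by positivity)]
        have h3 : ((M : ℝ) + 3) / ((M : ℝ) + 2) = 1 + 1 / ((M : ℝ) + 2) := by field_simp; ring
        rw [h3]
        have h4 : (0 : ℝ) < 1 + 1 / ((M : ℝ) + 2) := by positivity
        have := Real.log_le_sub_one_of_pos h4
        linarith
      push_cast
      have e : (M : ℝ) + 1 + 2 = M + 3 := by ring
      rw [e]
      linarith
  have h2 : ∑ j ∈ Finset.range N, 1 / (2 * ((j : ℝ) + 2)) = (1 / 2) * ∑ j ∈ Finset.range N, 1 / ((j : ℝ) + 2) := by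
    rw [Finset.mul_sum]
    apply Finset.sum_congr rfl
    intro j _
    have : (j : ℝ) + 2 ≠ 0 := by positivity
    field_simp
  rw [h2]
  have h3 := h1 N
  have hNpos : (0 : ℝ) < N := by exact_mod_cast hN
  have h4 : Real.log N / 2 ≤ Real.log ((N : ℝ) + 2) - Real.log 2 := by
    rw [← Real.log_div (by positivity) (by norm_num)]
    have h5 : Real.log N / 2 = Real.log (Real.sqrt N) := by
      rw [Real.log_sqrt hNpos.le]
    rw [h5]
    apply Real.log_le_log (Real.sqrt_pos.2 hNpos)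
    have h6 : Real.sqrt N ^ 2 = N := Real.sq_sqrt hNpos.le
    have h7 : 0 ≤ (Real.sqrt N - 1) ^ 2 := sq_nonneg _
    rw [le_div_iff₀ (by norm_num)]
    nlinarith
  linarith

end Pool.Agent.Helper66_Extrap
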