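import Pool.Agent.Helper66_Extrap.Defs

set_option autoImplicit false

/-!
# Smooth convex functions from first-order inequalities; the tilted Huber function
-/

namespace Pool.Agent.Helper66_Extrap

open scoped RealInnerProductSpace

section General
variable {E : Type*} [NormedAddCommGroup E] [InnerProductSpace ℝ E]

/-- first-order characterization of convexity -/
lemma convexOn_of_firstOrder {f : E → ℝ} {G : E → E}
    (h1 : ∀ x y, f x + ⟪G x, y - x⟫ ≤ f y) : ConvexOn ℝ Set.univ f := by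
  refine ⟨convex_univ, fun x _ y _ a b ha hb hab => ?_⟩
  set z := a • x + b • y with hz
  have hx := h1 z x
  have hy := h1 z y
  have e : a * ⟪G z, x - z⟫ + b * ⟪G z, y - z⟫ = 0 := by
    rw [← inner_smul_right, ← inner_smul_right, ← inner_add_right]
    have : a • (x - z) + b • (y - z) = 0 := by
      rw [smul_sub, smul_sub]
      have hs : a • z + b • z = z := by rw [← add_smul, hab, one_smul]
      calc a • x - a • z + (b • y - b • z) = (a • x + b • y) - (a • z + b • z) := by abel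
        _ = 0 := by rw [hs, ← hz, sub_self]
    rw [this, inner_zero_right]
  have e2 : f z = a * f z + b * f z := by rw [← add_mul, hab, one_mul]
  rw [smul_eq_mul, smul_eq_mul]
  nlinarith [mul_le_mul_of_nonneg_left hx ha, mul_le_mul_of_nonneg_left hy hb]

variable [CompleteSpace E]

lemma hasGradientAt_of_firstOrder {f : E → ℝ} {G : E → E} {K : ℝ} (hK : 0 ≤ K)
    (h1 : ∀ x y, f x + ⟪G x, y - x⟫ ≤ f y) (h2 : ∀ x y, ‖G x - G y‖ ≤ K * ‖x - y‖) (x : E) :
    HasGradientAt f (G x) x := by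
  rw [hasGradientAt_iff_isLittleO]
  have hbound : ∀ y, ‖f y - f x - ⟪G x, y - x⟫‖ ≤ K * ‖y - x‖ ^ 2 := by
    intro y
    rw [Real.norm_eq_abs, abs_le]
    constructor
    · have := h1 x y
      nlinarith [mul_nonneg hK (sq_nonneg ‖y - x‖)]
    · have h3 := h1 y x
      have h4 : ⟪G y - G x, y - x⟫ ≤ K * ‖y - x‖ ^ 2 := by
        calc ⟪G y - G x, y - x⟫ ≤ ‖G y - G x‖ * ‖y - x‖ := real_inner_le_norm _ _
          _ ≤ (K * ‖y - x‖) * ‖y - x‖ := by
              apply mul_le_mul_of_nonneg_right (h2 y x) (norm_nonneg _)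
          _ = K * ‖y - x‖ ^ 2 := by ring
      rw [inner_sub_left] at h4
      have h5 : ⟪G y, x - y⟫ = -⟪G y, y - x⟫ := by
        rw [← inner_neg_right, neg_sub]
      rw [h5] at h3
      linarith
  have hO : (fun y => f y - f x - ⟪G x, y - x⟫) =O[nhds x] fun y => ‖y - x‖ ^ 2 := by
    apply Asymptotics.IsBigO.of_bound K
    filter_upwards with y
    have := hbound y
    rwa [Real.norm_eq_abs (‖y - x‖ ^ 2), abs_of_nonneg (sq_nonneg _)]
  have ho : (fun y : E => ‖y - x‖ ^ 2) =o[nhds x] fun y => y - x := by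
    have h3 : (fun y : E => ‖y - x‖ ^ 2) = fun y => ‖y - x‖ * ‖y - x‖ := by
      funext y; ring
    rw [h3]
    have h4 : Filter.Tendsto (fun y : E => ‖y - x‖) (nhds x) (nhds 0) := by
      have : Filter.Tendsto (fun y : E => ‖y - x‖) (nhds x) (nhds ‖x - x‖) :=
        (Continuous.tendsto (by fun_prop) x)
      simpa using this
    have h5 : (fun y : E => ‖y - x‖) =o[nhds x] (fun _ => (1 : ℝ)) :=
      (Asymptotics.isLittleO_one_iff ℝ).2 h4
    have h6 := h5.mul_isBigO (Asymptotics.isBigO_refl (fun y : E => ‖y - x‖) (nhds x))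
    simp only [one_mul] at h6
    exact h6.trans_isBigO (Asymptotics.isBigO_refl _ _).norm_left
  exact hO.trans_isLittleO ho

end General

section Huber
variable {E : Type*} [NormedAddCommGroup E] [InnerProductSpace ℝ E]

/-- `Q y = y / max (2, ‖y‖)`, the gradient of the Huber function with threshold `2`. -/
noncomputable def Q (y : E) : E := (max 2 ‖y‖)⁻¹ • y

lemma Q_norm_le (y : E) : ‖Q y‖ ≤ 1 := by
  unfold Q
  have h0 : (0 : ℝ) < max 2 ‖y‖ := lt_of_lt_of_le (by norm_num) (le_max_left _ _)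
  rw [norm_smul, norm_inv, Real.norm_of_nonneg h0.le, inv_mul_le_iff₀ h0, mul_one]
  exact le_max_right _ _

/-- variational inequality: `⟪y - 2 Q y, g - Q y⟫ ≤ 0` for `‖g‖ ≤ 1`. -/
lemma Q_var (y g : E) (hg : ‖g‖ ≤ 1) : ⟪y - (2 : ℝ) • Q y, g - Q y⟫ ≤ 0 := by
  by_cases h : ‖y‖ ≤ 2
  · have : Q y = (2 : ℝ)⁻¹ • y := by
      unfold Q; rw [max_eq_left h]
    rw [this, smul_smul]
    norm_num
  · push Not at h
    have hmax : max 2 ‖y‖ = ‖y‖ := max_eq_right h.le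
    have hQ : Q y = ‖y‖⁻¹ • y := by unfold Q; rw [hmax]
    have hy : 0 < ‖y‖ := by linarith
    have e1 : y - (2 : ℝ) • Q y = (1 - 2 / ‖y‖) • y := by
      rw [hQ, smul_smul, sub_smul, one_smul]
      congr 1
    have e2 : ⟪y, Q y⟫ = ‖y‖ := by
      rw [hQ, inner_smul_right, real_inner_self_eq_norm_sq]
      field_simp
    rw [e1, inner_smul_left, inner_sub_right, e2]
    have h3 : ⟪y, g⟫ ≤ ‖y‖ := by
      calc ⟪y, g⟫ ≤ ‖y‖ * ‖g‖ := real_inner_le_norm _ _
        _ ≤ ‖y‖ * 1 := mul_le_mul_of_nonneg_left hg hy.le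
        _ = ‖y‖ := mul_one _
    have h4 : 0 ≤ 1 - 2 / ‖y‖ := by
      rw [sub_nonneg, div_le_one hy]; exact h.le
    have h5 : (starRingEnd ℝ) (1 - 2 / ‖y‖) = 1 - 2 / ‖y‖ := by simp
    rw [h5]
    nlinarith

lemma Q_lip (x y : E) : ‖Q x - Q y‖ ≤ 2⁻¹ * ‖x - y‖ := by
  have h1 := Q_var x (Q y) (Q_norm_le y)
  have h2 := Q_var y (Q x) (Q_norm_le x)
  have h3 : 2 * ‖Q x - Q y‖ ^ 2 ≤ ⟪x - y, Q x - Q y⟫ := by
    have e1 : ⟪x - (2 : ℝ) • Q x, Q y - Q x⟫ = -⟪x, Q x - Q y⟫ + 2 * ⟪Q x, Q x - Q y⟫ := by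
      have : Q y - Q x = -(Q x - Q y) := by abel
      rw [this, inner_neg_right, inner_sub_left, inner_smul_left]
      simp only [conj_trivial]
      ring
    have e2 : ⟪y - (2 : ℝ) • Q y, Q x - Q y⟫ = ⟪y, Q x - Q y⟫ - 2 * ⟪Q y, Q x - Q y⟫ := by
      rw [inner_sub_left, inner_smul_left]
      simp only [conj_trivial]
    rw [e1] at h1
    rw [e2] at h2
    have e3 : ‖Q x - Q y‖ ^ 2 = ⟪Q x, Q x - Q y⟫ - ⟪Q y, Q x - Q y⟫ := by
      rw [← inner_sub_left, real_inner_self_eq_norm_sq]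
    rw [e3, inner_sub_left]
    linarith
  have h4 : ⟪x - y, Q x - Q y⟫ ≤ ‖x - y‖ * ‖Q x - Q y‖ := real_inner_le_norm _ _
  by_cases h0 : ‖Q x - Q y‖ = 0
  · rw [h0]; positivity
  · have hpos : 0 < ‖Q x - Q y‖ := lt_of_le_of_ne (norm_nonneg _) (Ne.symm h0)
    have h5 : 2 * ‖Q x - Q y‖ ≤ ‖x - y‖ := by
      have : (2 * ‖Q x - Q y‖) * ‖Q x - Q y‖ ≤ ‖x - y‖ * ‖Q x - Q y‖ := by nlinarith
      exact le_of_mul_le_mul_right this hpos
    linarith

/-- the Huber function with threshold `2` and slope `1`. -/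
noncomputable def huber (y : E) : ℝ := ⟪Q y, y⟫ - ‖Q y‖ ^ 2

lemma huber_ge (y g : E) (hg : ‖g‖ ≤ 1) : ⟪g, y⟫ - ‖g‖ ^ 2 ≤ huber y := by
  have h := Q_var y g hg
  unfold huber
  have e : ⟪y - (2 : ℝ) • Q y, g - Q y⟫ = ⟪g, y⟫ - ⟪Q y, y⟫ - 2 * ⟪Q y, g⟫ + 2 * ‖Q y‖ ^ 2 := by
    rw [inner_sub_left, inner_sub_right, inner_sub_right, inner_smul_left, inner_smul_left,
      real_inner_self_eq_norm_sq, real_inner_comm g y, real_inner_comm (Q y) y]
    simp only [conj_trivial]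
    ring
  rw [e] at h
  have h2 : 0 ≤ ‖Q y - g‖ ^ 2 := sq_nonneg _
  rw [norm_sub_sq_real] at h2
  linarith

lemma huber_firstOrder (x y : E) : huber x + ⟪Q x, y - x⟫ ≤ huber y := by
  have h := huber_ge y (Q x) (Q_norm_le x)
  unfold huber at h ⊢
  rw [inner_sub_right]
  linarith

end Huber

section Example
variable {E : Type*} [NormedAddCommGroup E] [InnerProductSpace ℝ E]

/-- one-sided quadratic -/
lemma min_sq_firstOrder (t t' : ℝ) :
    (min t 0) ^ 2 / 4 + (min t 0) / 2 * (t' - t) ≤ (min t' 0) ^ 2 / 4 := by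
  rcases le_total t 0 with h | h <;> rcases le_total t' 0 with h' | h'
  · rw [min_eq_left h, min_eq_left h']; nlinarith [sq_nonneg (t - t')]
  · rw [min_eq_left h, min_eq_right h']; nlinarith
  · rw [min_eq_right h, min_eq_left h']; nlinarith [sq_nonneg t']
  · rw [min_eq_right h, min_eq_right h']; norm_num

/-- The example function: a tilted Huber function plus a one-sided quadratic. -/
noncomputable def F (κ : ℝ) (e : E) (x : E) : ℝ :=
  huber (x - (2 * κ) • e) + κ * ⟪e, x⟫ + (min ⟪e, x⟫ 0) ^ 2 / 4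

/-- its gradient -/
noncomputable def GF (κ : ℝ) (e : E) (x : E) : E :=
  Q (x - (2 * κ) • e) + κ • e + (min ⟪e, x⟫ 0 / 2) • e

lemma F_firstOrder (κ : ℝ) (e x y : E) : F κ e x + ⟪GF κ e x, y - x⟫ ≤ F κ e y := by
  unfold F GF
  have h1 := huber_firstOrder (x - (2 * κ) • e) (y - (2 * κ) • e)
  have h2 := min_sq_firstOrder ⟪e, x⟫ ⟪e, y⟫
  rw [sub_sub_sub_cancel_right] at h1
  rw [inner_add_left, inner_add_left, inner_smul_left, inner_smul_left]
  simp only [conj_trivial]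
  rw [inner_sub_right (𝕜 := ℝ) e y x]
  linarith

lemma GF_lip (κ : ℝ) (e : E) (he : ‖e‖ = 1) (x y : E) : ‖GF κ e x - GF κ e y‖ ≤ ‖x - y‖ := by
  unfold GF
  have e1 : Q (x - (2 * κ) • e) + κ • e + (min ⟪e, x⟫ 0 / 2) • e
      - (Q (y - (2 * κ) • e) + κ • e + (min ⟪e, y⟫ 0 / 2) • e)
      = (Q (x - (2 * κ) • e) - Q (y - (2 * κ) • e))
        + ((min ⟪e, x⟫ 0 - min ⟪e, y⟫ 0) / 2) • e := by
    rw [sub_div, sub_smul]; abel
  rw [e1]
  have h1 := Q_lip (x - (2 * κ) • e) (y - (2 * κ) • e)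
  rw [sub_sub_sub_cancel_right] at h1
  have h2 : ‖((min ⟪e, x⟫ 0 - min ⟪e, y⟫ 0) / 2) • e‖ ≤ 2⁻¹ * ‖x - y‖ := by
    rw [norm_smul, he, mul_one, Real.norm_eq_abs, abs_div, abs_two]
    have h3 : |min ⟪e, x⟫ 0 - min ⟪e, y⟫ 0| ≤ |⟪e, x⟫ - ⟪e, y⟫| := by
      have := abs_min_sub_min_le_max ⟪e, x⟫ 0 ⟪e, y⟫ 0
      simpa using this
    have h4 : |⟪e, x⟫ - ⟪e, y⟫| ≤ ‖x - y‖ := by
      rw [← inner_sub_right]
      have := abs_real_inner_le_norm e (x - y)
      rwa [he, one_mul] at this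
    linarith
  calc _ ≤ ‖Q (x - (2 * κ) • e) - Q (y - (2 * κ) • e)‖
        + ‖((min ⟪e, x⟫ 0 - min ⟪e, y⟫ 0) / 2) • e‖ := norm_add_le _ _
    _ ≤ ‖x - y‖ := by linarith

lemma GF_zero (κ : ℝ) (hκ0 : 0 ≤ κ) (hκ : κ ≤ 1) (e : E) (he : ‖e‖ = 1) : GF κ e 0 = 0 := by
  unfold GF
  have h1 : Q ((0 : E) - (2 * κ) • e) = -(κ • e) := by
    unfold Q
    rw [zero_sub, norm_neg, norm_smul, he, mul_one, Real.norm_of_nonneg (by linarith),
      max_eq_left (by linarith), smul_neg, smul_smul]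
    congr 2
    ring
  rw [h1]
  simp

end Example

end Pool.Agent.Helper66_Extrap
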